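import Mathlib
import Pool.Agent.H63.Bulk.Defs

set_option autoImplicit false

/-! Two arms on the bi-infinite cylinder (MP_fe58d8_pr): definitions. -/

open MeasureTheory

namespace Pool.Agent.H65.Two

open Pool.Agent.H63.Bulk (BConf BWinds bulkMeasure)

/-- The graph of dual-open edges of a periodic configuration; `(x, y)` stands for the face with
centre `(x + 1/2, y + 1/2)`. -/
def dualGraph (n : ℕ) (ω : BConf n) : SimpleGraph (ℤ × ℤ) :=
  SimpleGraph.fromRel (fun f g =>
    (g = (f.1 + 1, f.2) ∧ ω (f.1 + 1 + f.2, ((f.1 + 1 : ℤ) : ZMod n), false) = false) ∨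
     (g = (f.1, f.2 + 1) ∧ ω (f.1 + (f.2 + 1), (f.1 : ZMod n), true) = false))

/-- the dual-open cluster of the face `f` winds around the cylinder -/
def FWinds (n : ℕ) (ω : BConf n) (f : ℤ × ℤ) : Prop :=
  ∃ m : ℤ, m ≠ 0 ∧ (dualGraph n ω).Reachable f (f.1 + m * n, f.2 - m * n)

/-- the cluster of the vertex `(0,0)` and the dual cluster of the face with centre `(1/2,-1/2)`
both wind around the cylinder -/
def TwoWinds (n : ℕ) (ω : BConf n) : Prop := BWinds n ω ∧ FWinds n ω (0, -1)

end Pool.Agent.H65.Two
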