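import Mathlib
import Pool.Agent.H75.TwoArm.Corr
import Pool.Agent.H63.Bulk.Lower
import Pool.Agent.H65.Two.Defs

set_option autoImplicit false
open Finset

/-! Two arms on the cylinder: corridors and winding circuits (deterministic part and probability). -/

namespace Pool.Agent.H65.Two

open Pool.Agent.H75.Perc
open Pool.Agent.H75.TwoArm
open Pool.Agent.H63.Perc (AdS CoS rp EC mem_EC pull mem_pull pull_sub pull_mono rp_sum rp_inj
  rp_mem_EC rp_shift co_toS Pr_pull)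
open Pool.Agent.H63.Bulk (PB mem_PB PB_shift)

/-- horizontal crossing of a rectangle by a path with labels in `S`, starting at `p` -/
def HP (S : Set (ℤ × ℤ)) (a b c d : ℤ) (p : ℤ × ℤ) : Prop :=
  ∃ (ω1 : Finset (ℤ × ℤ)) (q : ℤ × ℤ), (∀ e ∈ ω1, e ∈ S) ∧ ω1 ⊆ Bx a b c d ∧ inB a b c d p ∧
    p.1 = a ∧ q.1 = b ∧ Co ω1 p q

/-- vertical crossing of a rectangle by a path with labels in `S`, starting at `p` -/
def VP (S : Set (ℤ × ℤ)) (a b c d : ℤ) (p : ℤ × ℤ) : Prop :=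
  ∃ (ω1 : Finset (ℤ × ℤ)) (q : ℤ × ℤ), (∀ e ∈ ω1, e ∈ S) ∧ ω1 ⊆ Bx a b c d ∧ inB a b c d p ∧
    p.2 = c ∧ q.2 = d ∧ Co ω1 p q

lemma HP.meet {S : Set (ℤ × ℤ)} {a b c d a' b' c' d' : ℤ} {p r : ℤ × ℤ} (h : HP S a b c' d' p)
    (h' : VP S a' b' c d r) (ha : a ≤ a') (hb : b' ≤ b) (hc : c ≤ c') (hd : d' ≤ d) :
    CoS S p r := by
  obtain ⟨ω1, q, a1, a2, a3, a4, a5, a6⟩ := h
  obtain ⟨ω2, s, c1, c2, c3, c4, c5, c6⟩ := h'
  exact Pool.Agent.H63.Perc.meet a1 c1 ha hb hc hd a2 c2 a3 c3 a4 a5 c4 c5 a6 c6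

lemma HP.mono {S S' : Set (ℤ × ℤ)} {a b c d : ℤ} {p : ℤ × ℤ} (h : HP S a b c d p)
    (hS : ∀ e ∈ Bx a b c d, e ∈ S → e ∈ S') : HP S' a b c d p := by
  obtain ⟨ω1, q, a1, a2, a3⟩ := h
  exact ⟨ω1, q, fun e he => hS e (a2 he) (a1 e he), a2, a3⟩

lemma VP.mono {S S' : Set (ℤ × ℤ)} {a b c d : ℤ} {p : ℤ × ℤ} (h : VP S a b c d p)
    (hS : ∀ e ∈ Bx a b c d, e ∈ S → e ∈ S') : VP S' a b c d p := by
  obtain ⟨ω1, q, a1, a2, a3⟩ := h
  exact ⟨ω1, q, fun e he => hS e (a2 he) (a1 e he), a2, a3⟩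

lemma HP.shift {S : Set (ℤ × ℤ)} {n : ℤ} (hS : ∀ e, e ∈ S → e + (2 * n, -(2 * n)) ∈ S)
    {a b c d : ℤ} {p : ℤ × ℤ} (h : HP S a b c d p) :
    HP S (a + n) (b + n) (c - n) (d - n) (p + (n, -n)) := by
  obtain ⟨ω1, q, a1, a2, a3, a4, a5, a6⟩ := h
  refine ⟨ω1.map (syT (n, -n)).G, q + (n, -n), ?_, ?_, ?_, ?_, ?_, ?_⟩
  · intro e he
    rw [mem_map] at he
    obtain ⟨x, hx, rfl⟩ := he
    have := hS x (a1 x hx)
    have e1 : (syT (n, -n)).G x = x + (2 * n, -(2 * n)) := by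
      simp only [syT, Function.Embedding.coeFn_mk]
      refine Prod.ext ?_ ?_ <;> simp only [Prod.fst_add, Prod.snd_add]; ring
    rw [e1]; exact this
  · intro e he
    rw [mem_map] at he
    obtain ⟨x, hx, rfl⟩ := he
    have h3 := mem_Bx.1 (a2 hx)
    rw [mem_Bx]
    simp only [syT, Function.Embedding.coeFn_mk]
    omega
  · unfold inB at a3 ⊢
    simp only [Prod.fst_add, Prod.snd_add]
    omega
  · simp only [Prod.fst_add]; omega
  · simp only [Prod.fst_add]; omega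
  · exact ((syT (n, -n)).co_iff ω1 p q).2 a6

/-- a winding circuit built from eight horizontal and eight vertical crossings -/
theorem wind_chain' {S : Set (ℤ × ℤ)} {n L : ℤ} (hL : 1 ≤ L) (hn : n = 64 * L)
    (hS : ∀ e, e ∈ S → e + (2 * n, -(2 * n)) ∈ S) {y0 va vb : ℤ}
    (hH : ∀ i : ℕ, i < 8 → ∃ p, HP S (-(8 * L) + 8 * L * i) (8 * L + 8 * L * i) (y0 - 8 * L * i)
      (y0 + 8 * L - 8 * L * i) p)
    (hV : ∀ i : ℕ, i < 8 → ∃ p, VP S (8 * L * i) (8 * L + 8 * L * i) (y0 - 8 * L - 8 * L * i)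
      (y0 + 8 * L - 8 * L * i) p)
    {a' b' : ℤ} (ha' : -(8 * L) ≤ a') (hb' : b' ≤ 8 * L)
    {r : ℤ × ℤ} (hr : VP S a' b' va vb r) (hva : va ≤ y0) (hvb : y0 + 8 * L ≤ vb) :
    CoS S r (r + (n, -n)) := by
  obtain ⟨p0, hp0⟩ := hH 0 (by norm_num)
  have hp8 : HP S (-(8 * L) + 8 * L * (8 : ℕ)) (8 * L + 8 * L * (8 : ℕ)) (y0 - 8 * L * (8 : ℕ))
      (y0 + 8 * L - 8 * L * (8 : ℕ)) (p0 + (n, -n)) := by
    have := hp0.shift hS
    push_cast at this ⊢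
    have e1 : -(8 * L) + 8 * L * 8 = -(8 * L) + 8 * L * 0 + n := by rw [hn]; ring
    have e2 : 8 * L + 8 * L * 8 = 8 * L + 8 * L * 0 + n := by rw [hn]; ring
    have e3 : y0 - 8 * L * 8 = y0 - 8 * L * 0 - n := by rw [hn]; ring
    have e4 : y0 + 8 * L - 8 * L * 8 = y0 + 8 * L - 8 * L * 0 - n := by rw [hn]; ring
    rw [e1, e2, e3, e4]
    exact this
  have step : ∀ i : ℕ, i < 8 → ∀ p p', HP S (-(8 * L) + 8 * L * i) (8 * L + 8 * L * i)
      (y0 - 8 * L * i) (y0 + 8 * L - 8 * L * i) p →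
      HP S (-(8 * L) + 8 * L * (i + 1 : ℕ)) (8 * L + 8 * L * (i + 1 : ℕ))
      (y0 - 8 * L * (i + 1 : ℕ)) (y0 + 8 * L - 8 * L * (i + 1 : ℕ)) p' → CoS S p p' := by
    intro i hi p p' hp hp'
    obtain ⟨r, hr⟩ := hV i hi
    have g1 : 8 * L * ((i + 1 : ℕ) : ℤ) = 8 * L * i + 8 * L := by push_cast; ring
    rw [g1] at hp'
    have k1 := hp.meet hr (by omega) (by omega) (by omega) (by omega)
    have k2 := hp'.meet hr (by omega) (by omega) (by omega) (by omega)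
    exact k1.trans k2.symm
  have key : ∀ i : ℕ, i < 8 → ∃ p, HP S (-(8 * L) + 8 * L * i) (8 * L + 8 * L * i)
      (y0 - 8 * L * i) (y0 + 8 * L - 8 * L * i) p ∧ CoS S p0 p := by
    intro i
    induction i with
    | zero => intro _; exact ⟨p0, hp0, Relation.ReflTransGen.refl⟩
    | succ i ih =>
      intro hi
      obtain ⟨p, hp, hc⟩ := ih (by omega)
      obtain ⟨p', hp'⟩ := hH (i + 1) hi
      exact ⟨p', hp', hc.trans (step i (by omega) p p' hp hp')⟩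
  obtain ⟨p7, hp7, hc7⟩ := key 7 (by norm_num)
  have h78 := step 7 (by norm_num) p7 (p0 + (n, -n)) hp7 hp8
  have h0r : CoS S p0 r := by
    have e : (8 : ℤ) * L * ((0 : ℕ) : ℤ) = 0 := by simp
    rw [e] at hp0
    exact hp0.meet hr (by omega) (by omega) (by omega) (by omega)
  exact (h0r.symm.trans (hc7.trans h78)).trans (CoS.shift hS h0r)

theorem wind_chain {S : Set (ℤ × ℤ)} {n L : ℤ} (hL : 1 ≤ L) (hn : n = 64 * L)
    (hS : ∀ e, e ∈ S → e + (2 * n, -(2 * n)) ∈ S) {y0 va vb : ℤ}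
    (hH : ∀ i : ℕ, i < 8 → ∃ p, HP S (-(8 * L) + 8 * L * i) (8 * L + 8 * L * i) (y0 - 8 * L * i)
      (y0 + 8 * L - 8 * L * i) p)
    (hV : ∀ i : ℕ, i < 8 → ∃ p, VP S (8 * L * i) (8 * L + 8 * L * i) (y0 - 8 * L - 8 * L * i)
      (y0 + 8 * L - 8 * L * i) p)
    {r : ℤ × ℤ} (hr : VP S (3 * L) (4 * L) va vb r) (hva : va ≤ y0) (hvb : y0 + 8 * L ≤ vb) :
    CoS S r (r + (n, -n)) :=
  wind_chain' hL hn hS hH hV (by omega) (by omega) hr hva hvb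

/-- right part of a horizontal crossing -/
lemma right_part {ω : Finset (ℤ × ℤ)} {a m b c d : ℤ} (h1 : a ≤ m) (h2 : m ≤ b) {p q : ℤ × ℤ}
    (hp : inB a b c d p) (hp1 : p.1 = a) (hq1 : q.1 = b) (hpq : Co (ω ∩ Bx a b c d) p q) :
    ∃ z, inB m b c d z ∧ z.1 = m ∧ Co (ω ∩ Bx m b c d) z q := by
  rcases eq_or_lt_of_le h1 with rfl | h1
  · exact ⟨p, hp, hp1, hpq⟩
  have hq : inB a b c d q := hpq.inB inter_subset_right hp
  obtain ⟨z, z', hz, hz', had, hcx, -⟩ := exit_co (X := inB m b c d) hpq.symm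
    (by unfold inB at hq ⊢; omega) (by unfold inB; omega)
  have hz1 : z.1 = m := by
    have h5 := unit_cases had.1
    have h6 := (had.inB inter_subset_right).2
    unfold inB at hz hz' h6
    omega
  have hbox := hcx.box (fun z hz => hz) (by unfold inB at hq ⊢; omega)
  refine ⟨z, hz, hz1, ?_⟩
  refine Co.mono ?_ hbox.symm
  intro e he
  rw [mem_inter, mem_inter] at he
  exact mem_inter.2 ⟨he.1.1, he.2⟩

/-! ### dual labels -/

/-- periodic set of dual-open labels -/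
def PD (n : ℤ) (E ω : Finset (ℤ × ℤ)) : Set (ℤ × ℤ) :=
  fun x => rp n (x - (1, 1)) ∈ E ∧ rp n (x - (1, 1)) ∉ ω

lemma mem_PD {n : ℤ} {E ω : Finset (ℤ × ℤ)} {x : ℤ × ℤ} :
    x ∈ PD n E ω ↔ rp n (x - (1, 1)) ∈ E ∧ rp n (x - (1, 1)) ∉ ω := Iff.rfl

lemma PD_shift {n : ℤ} {E ω : Finset (ℤ × ℤ)} :
    ∀ e, e ∈ PD n E ω → e + (2 * n, -(2 * n)) ∈ PD n E ω := by
  intro e he
  rw [mem_PD] at he ⊢
  have : e + (2 * n, -(2 * n)) - (1, 1) = e - (1, 1) + (2 * n, -(2 * n)) := by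
    refine Prod.ext ?_ ?_ <;> simp only [Prod.fst_add, Prod.snd_add, Prod.fst_sub, Prod.snd_sub] <;>
    ring
  rw [this, rp_shift]
  exact he

/-- pull back of a set of dual labels -/
def pulld (n : ℤ) (F D : Finset (ℤ × ℤ)) : Finset (ℤ × ℤ) :=
  F.filter (fun x => sh1 (rp n (x - (1, 1))) ∈ D)

lemma mem_pulld_du {n : ℤ} {F E ω : Finset (ℤ × ℤ)} {x : ℤ × ℤ} :
    x ∈ pulld n F (du E ω) ↔ x ∈ F ∧ x ∈ PD n E ω := by
  unfold pulld du
  rw [mem_filter, mem_map, mem_PD]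
  constructor
  · rintro ⟨h1, y, hy, hyx⟩
    have := sh1.injective hyx
    subst this
    rw [mem_sdiff] at hy
    exact ⟨h1, hy⟩
  · rintro ⟨h1, h2⟩
    exact ⟨h1, _, mem_sdiff.2 h2, rfl⟩

/-! ### the list of rectangles -/

/-- a rectangle with a direction of crossing -/
abbrev Rc := Bool × ℤ × ℤ × ℤ × ℤ

def Ev (x : Rc) (η : Finset (ℤ × ℤ)) : Prop :=
  (x.1 = true → HC x.2.1 x.2.2.1 x.2.2.2.1 x.2.2.2.2 η) ∧
    (x.1 = false → VC x.2.1 x.2.2.1 x.2.2.2.1 x.2.2.2.2 η)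

noncomputable def Wd (x : Rc) : Finset (ℤ × ℤ) := Bx x.2.1 x.2.2.1 x.2.2.2.1 x.2.2.2.2

lemma Ev_inc (x : Rc) : Inc (Ev x) := fun _ _ h h' =>
  ⟨fun h1 => HC_inc _ _ _ _ _ _ h (h'.1 h1), fun h1 => VC_inc _ _ _ _ _ _ h (h'.2 h1)⟩

/-- the crossings of one colour -/
def rc (s L ρ t va vb y0 : ℤ) (k : ℕ) : Rc :=
  if k = 0 then (true, ρ - 2 * s, 4 * L, t + s, t + 2 * s)
  else if k = 1 then (false, ρ - 2 * s, ρ - s, t - 2 * s, t + 2 * s)
  else if k = 2 then (true, ρ - 2 * s, ρ + 1, t - 2 * s, t - s)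
  else if k = 3 then (false, 3 * L, 4 * L, va, vb)
  else if k < 12 then (true, -(8 * L) + 8 * L * ((k - 4 : ℕ) : ℤ), 8 * L + 8 * L * ((k - 4 : ℕ) : ℤ),
    y0 - 8 * L * ((k - 4 : ℕ) : ℤ), y0 + 8 * L - 8 * L * ((k - 4 : ℕ) : ℤ))
  else (false, 8 * L * ((k - 12 : ℕ) : ℤ), 8 * L + 8 * L * ((k - 12 : ℕ) : ℤ),
    y0 - 8 * L - 8 * L * ((k - 12 : ℕ) : ℤ), y0 + 8 * L - 8 * L * ((k - 12 : ℕ) : ℤ))

lemma Pr_Ev {n Lb : ℤ} (hn : 1 ≤ n) (x : Rc) (hw : x.2.2.1 - x.2.1 < n)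
    (h1 : -Lb ≤ 2 * x.2.1 + 2 * x.2.2.2.1) (h2 : 2 * x.2.2.1 + 2 * x.2.2.2.2 ≤ Lb) :
    Pr (EC n Lb) (fun ω => Ev x (pull n (Wd x) ω)) =
      if x.1 = true then fc (x.2.2.1 - x.2.1) (x.2.2.2.2 - x.2.2.2.1)
      else fc (x.2.2.2.2 - x.2.2.2.1) (x.2.2.1 - x.2.1) := by
  have h3 : Pr (EC n Lb) (fun ω => Ev x (pull n (Wd x) ω)) = Pr (Wd x) (Ev x) := by
    unfold pull
    refine Pr_pull (rp_inj ?_) ?_ (Ev x)
    · intro e he e' he'
      have h1 := mem_Bx.1 he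
      have h2 := mem_Bx.1 he'
      omega
    · intro e he
      have h1 := mem_Bx.1 he
      exact rp_mem_EC (by omega) (by omega) (by omega) h1.2.2
  rw [h3]
  obtain ⟨b, a', b', c', d'⟩ := x
  unfold Ev Wd
  cases b
  · simp only [Bool.false_eq_true, false_imp_iff, true_and, if_false, true_imp_iff]
    exact Pool.Agent.H75.Perc.Pr_VC (subset_refl _)
  · simp only [Bool.true_eq_false, false_imp_iff, and_true, if_true, true_imp_iff]
    exact Pr_HC' (subset_refl _)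

lemma Pr_Evd {n Lb : ℤ} (hn : 1 ≤ n) (x : Rc) (hw : x.2.2.1 - x.2.1 < n)
    (h1 : -Lb + 2 ≤ 2 * x.2.1 + 2 * x.2.2.2.1) (h2 : 2 * x.2.2.1 + 2 * x.2.2.2.2 ≤ Lb) :
    Pr (EC n Lb) (fun ω => Ev x (pulld n (Wd x) (du (EC n Lb) ω))) =
      if x.1 = true then fc (x.2.2.1 - x.2.1) (x.2.2.2.2 - x.2.2.2.1)
      else fc (x.2.2.2.2 - x.2.2.2.1) (x.2.2.1 - x.2.1) := by
  have h3 : Pr (EC n Lb) (fun ω => Ev x (pulld n (Wd x) (du (EC n Lb) ω))) =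
      Pr (Wd x) (Ev x) := by
    rw [RswAux.Pr_du_eq (EC n Lb) (fun D => Ev x (pulld n (Wd x) D))]
    unfold pulld
    refine Pr_pull (π := fun x => sh1 (rp n (x - (1, 1)))) ?_ ?_ (Ev x)
    · intro e he e' he' h
      have h4 := sh1.injective h
      have h1 := mem_Bx.1 (mem_coe.1 he)
      have h2 := mem_Bx.1 (mem_coe.1 he')
      have h5 := rp_inj (n := n) (F := {e - (1, 1), e' - (1, 1)}) (by
        intro y hy y' hy'
        rw [mem_insert, mem_singleton] at hy hy'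
        rcases hy with rfl | rfl <;> rcases hy' with rfl | rfl <;>
          simp only [Prod.fst_sub] <;> omega) (by simp) (by simp) h4
      have h6 := congrArg Prod.fst h5
      have h7 := congrArg Prod.snd h5
      simp only [Prod.fst_sub, Prod.snd_sub] at h6 h7
      exact Prod.ext (by omega) (by omega)
    · intro e he
      have h1 := mem_Bx.1 he
      refine mem_map.2 ⟨_, rp_mem_EC (by omega) ?_ ?_ ?_, rfl⟩ <;>
        simp only [Prod.fst_sub, Prod.snd_sub] <;> omega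
  rw [h3]
  obtain ⟨b, a', b', c', d'⟩ := x
  unfold Ev Wd
  cases b
  · simp only [Bool.false_eq_true, false_imp_iff, true_and, if_false, true_imp_iff]
    exact Pool.Agent.H75.Perc.Pr_VC (subset_refl _)
  · simp only [Bool.true_eq_false, false_imp_iff, and_true, if_true, true_imp_iff]
    exact Pr_HC' (subset_refl _)

/-- the constraints on the parameters of the list -/
structure Geo (s L ρ t va vb y0 : ℤ) : Prop where
  hs : 1 ≤ s
  hρ : 16 * s ≤ ρ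
  hρ2 : ρ ≤ L + 1
  ht : -(L + 1) ≤ t ∧ t ≤ L + 1
  hva : -(24 * L) ≤ va
  hvb : vb ≤ 24 * L
  hab : va + L ≤ vb
  hy0 : -(24 * L) ≤ y0
  hy1 : y0 ≤ 16 * L

lemma rc_geo {s L ρ t va vb y0 : ℤ} (h : Geo s L ρ t va vb y0) (k : ℕ) (hk : k < 20) :
    (rc s L ρ t va vb y0 k).2.2.1 - (rc s L ρ t va vb y0 k).2.1 < 64 * L ∧
    -(70 * L) + 2 ≤ 2 * (rc s L ρ t va vb y0 k).2.1 + 2 * (rc s L ρ t va vb y0 k).2.2.2.1 ∧
    2 * (rc s L ρ t va vb y0 k).2.2.1 + 2 * (rc s L ρ t va vb y0 k).2.2.2.2 ≤ 70 * L ∧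
    ((rc s L ρ t va vb y0 k).1 = true →
      0 ≤ (rc s L ρ t va vb y0 k).2.2.1 - (rc s L ρ t va vb y0 k).2.1 ∧
      (rc s L ρ t va vb y0 k).2.2.1 - (rc s L ρ t va vb y0 k).2.1 ≤ 50 * L ∧
      s ≤ (rc s L ρ t va vb y0 k).2.2.2.2 - (rc s L ρ t va vb y0 k).2.2.2.1) ∧
    ((rc s L ρ t va vb y0 k).1 = false →
      0 ≤ (rc s L ρ t va vb y0 k).2.2.2.2 - (rc s L ρ t va vb y0 k).2.2.2.1 ∧
      (rc s L ρ t va vb y0 k).2.2.2.2 - (rc s L ρ t va vb y0 k).2.2.2.1 ≤ 50 * L ∧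
      s ≤ (rc s L ρ t va vb y0 k).2.2.1 - (rc s L ρ t va vb y0 k).2.1) := by
  obtain ⟨h1, h2, h3, ⟨h4, h4'⟩, h5, h6, h7, h8, h9⟩ := h
  interval_cases k <;> simp [rc] <;> omega

lemma pull_inter {n : ℤ} {W E1 ω : Finset (ℤ × ℤ)} (h : ∀ e ∈ W, rp n e ∈ E1) :
    pull n W (ω ∩ E1) = pull n W ω := by
  unfold pull
  apply filter_congr
  intro e he
  rw [mem_inter]
  exact ⟨fun h' => h'.1, fun h' => ⟨h', h e he⟩⟩

lemma pulld_inter {n : ℤ} {W E2 D : Finset (ℤ × ℤ)} (h : ∀ e ∈ W, rp n (e - (1, 1)) ∈ E2) :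
    pulld n W (D ∩ E2.map sh1) = pulld n W D := by
  unfold pulld
  apply filter_congr
  intro e he
  rw [mem_inter]
  exact ⟨fun h' => h'.1, fun h' => ⟨h', mem_map.2 ⟨_, h e he, rfl⟩⟩⟩

lemma pulld_mono {n : ℤ} {W D D' : Finset (ℤ × ℤ)} (h : D ⊆ D') : pulld n W D ⊆ pulld n W D' := by
  unfold pulld
  intro e he
  rw [mem_filter] at he ⊢
  exact ⟨he.1, h he.2⟩

theorem prob_two (K : ℕ) : ∃ q : ℝ, 0 < q ∧ ∀ s L ρ t va vb y0 ρ' t' va' vb' y0' : ℤ,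
    L ≤ K * s → Geo s L ρ t va vb y0 → Geo s L ρ' t' va' vb' y0' →
    ∀ E1 E2 : Finset (ℤ × ℤ), E1 ⊆ EC (64 * L) (70 * L) → E2 ⊆ EC (64 * L) (70 * L) →
    Disjoint E1 E2 →
    (∀ k < 20, ∀ e ∈ Wd (rc s L ρ t va vb y0 k), rp (64 * L) e ∈ E1) →
    (∀ k < 20, ∀ e ∈ Wd (rc s L ρ' t' va' vb' y0' k), rp (64 * L) (e - (1, 1)) ∈ E2) →
    q ≤ Pr (EC (64 * L) (70 * L)) (fun ω =>
      (∀ k ∈ range 20, Ev (rc s L ρ t va vb y0 k)
        (pull (64 * L) (Wd (rc s L ρ t va vb y0 k)) ω)) ∧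
      (∀ k ∈ range 20, Ev (rc s L ρ' t' va' vb' y0' k)
        (pulld (64 * L) (Wd (rc s L ρ' t' va' vb' y0' k)) (du (EC (64 * L) (70 * L)) ω)))) := by
  obtain ⟨c, hc, hfc⟩ := hc_ratio (50 * K)
  refine ⟨c ^ 40, by positivity, ?_⟩
  intro s L ρ t va vb y0 ρ' t' va' vb' y0' hLK hG hG' E1 E2 hE1 hE2 hd hz1 hz2
  have hs := hG.hs
  have hL1 : 1 ≤ L := by have := hG.hρ; have := hG.hρ2; omega
  have hlow : ∀ w h : ℤ, 0 ≤ w → w ≤ 50 * L → s ≤ h → c ≤ fc w h := by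
    intro w h h1 h2 h3
    refine hfc w h h1 (by omega) ?_
    push_cast
    have e1 : (50 * (K : ℤ)) * s ≤ (50 * K) * h := mul_le_mul_of_nonneg_left h3 (by positivity)
    have e2 : (50 * (K : ℤ)) * s = 50 * (K * s) := by ring
    omega
  have hb : ∀ ρ t va vb y0 : ℤ, Geo s L ρ t va vb y0 → ∀ k < 20,
      c ≤ if (rc s L ρ t va vb y0 k).1 = true then
        fc ((rc s L ρ t va vb y0 k).2.2.1 - (rc s L ρ t va vb y0 k).2.1)
          ((rc s L ρ t va vb y0 k).2.2.2.2 - (rc s L ρ t va vb y0 k).2.2.2.1)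
      else fc ((rc s L ρ t va vb y0 k).2.2.2.2 - (rc s L ρ t va vb y0 k).2.2.2.1)
          ((rc s L ρ t va vb y0 k).2.2.1 - (rc s L ρ t va vb y0 k).2.1) := by
    intro ρ t va vb y0 hG k hk
    obtain ⟨-, -, -, g4, g5⟩ := rc_geo hG k hk
    split_ifs with hb
    · obtain ⟨a1, a2, a3⟩ := g4 hb
      exact hlow _ _ a1 a2 a3
    · obtain ⟨a1, a2, a3⟩ := g5 (by simpa using hb)
      exact hlow _ _ a1 a2 a3
  have key := Pr_two_colours hE1 hE2 hd (range 20) (range 20)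
    (fun k ω => Ev (rc s L ρ t va vb y0 k) (pull (64 * L) (Wd (rc s L ρ t va vb y0 k)) ω))
    (fun k D => Ev (rc s L ρ' t' va' vb' y0' k)
      (pulld (64 * L) (Wd (rc s L ρ' t' va' vb' y0' k)) D))
    (fun k _ ω ω' h h' => Ev_inc _ _ _ (pull_mono h) h')
    (fun k _ ω ω' h h' => Ev_inc _ _ _ (pulld_mono h) h')
    (fun k hk ω h => by
      rw [pull_inter (hz1 k (mem_range.1 hk))]; exact h)
    (fun k hk ω h => by
      rw [pulld_inter (hz2 k (mem_range.1 hk))]; exact h)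
  refine le_trans ?_ key
  have p1 : c ^ 20 ≤ ∏ k ∈ range 20, Pr (EC (64 * L) (70 * L)) (fun ω =>
      Ev (rc s L ρ t va vb y0 k) (pull (64 * L) (Wd (rc s L ρ t va vb y0 k)) ω)) := by
    have := Finset.prod_le_prod (s := range 20) (f := fun _ => c)
      (g := fun k => Pr (EC (64 * L) (70 * L)) (fun ω =>
      Ev (rc s L ρ t va vb y0 k) (pull (64 * L) (Wd (rc s L ρ t va vb y0 k)) ω)))
      (fun _ _ => hc.le) (fun k hk => by
        obtain ⟨g1, g2, g3, -, -⟩ := rc_geo hG k (mem_range.1 hk)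
        rw [Pr_Ev (by omega) _ g1 (by omega) g3]
        exact hb _ _ _ _ _ hG k (mem_range.1 hk))
    rwa [prod_const, card_range] at this
  have p2 : c ^ 20 ≤ ∏ k ∈ range 20, Pr (EC (64 * L) (70 * L)) (fun ω =>
      Ev (rc s L ρ' t' va' vb' y0' k) (pulld (64 * L) (Wd (rc s L ρ' t' va' vb' y0' k))
        (du (EC (64 * L) (70 * L)) ω))) := by
    have := Finset.prod_le_prod (s := range 20) (f := fun _ => c)
      (g := fun k => Pr (EC (64 * L) (70 * L)) (fun ω =>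
      Ev (rc s L ρ' t' va' vb' y0' k) (pulld (64 * L) (Wd (rc s L ρ' t' va' vb' y0' k))
        (du (EC (64 * L) (70 * L)) ω))))
      (fun _ _ => hc.le) (fun k hk => by
        obtain ⟨g1, g2, g3, -, -⟩ := rc_geo hG' k (mem_range.1 hk)
        rw [Pr_Evd (by omega) _ g1 g2 g3]
        exact hb _ _ _ _ _ hG' k (mem_range.1 hk))
    rwa [prod_const, card_range] at this
  calc c ^ 40 = c ^ 20 * c ^ 20 := by ring
    _ ≤ _ := mul_le_mul p1 p2 (by positivity) (le_trans (by positivity) p1)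

end Pool.Agent.H65.Two
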