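import Mathlib
import Pool.Agent.H65.Two.Chain

set_option autoImplicit false
open Finset

/-! Two arms on the cylinder: gluing. -/

namespace Pool.Agent.H65.Two

open Pool.Agent.H75.Perc hiding BE BB UU UU_mix
open Pool.Agent.H75.TwoArm
open Pool.Agent.H75.TwoArm.CorrAux
open Pool.Agent.H63.Perc (AdS CoS rp EC mem_EC pull mem_pull pull_sub pull_mono rp_sum rp_inj
  rp_mem_EC rp_shift co_toS Pr_pull)
open Pool.Agent.H63.Bulk (PB mem_PB PB_shift)

/-! ### zones -/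

def Zp (L h : ℤ) (e : ℤ × ℤ) : Prop :=
  14 * L ≤ e.1 + e.2 ∨ ((0 ≤ e.1 ∧ e.1 ≤ 8 * L + 4) ∧ (h < e.2 ∧ e.2 ≤ 50 * L))

def Zm (L h : ℤ) (e : ℤ × ℤ) : Prop :=
  e.1 + e.2 ≤ -(14 * L) ∨ ((0 ≤ e.1 ∧ e.1 ≤ 8 * L + 4) ∧ (-(50 * L) ≤ e.2 ∧ e.2 ≤ h))

open Classical in
noncomputable def EZ (L : ℤ) (Z : ℤ × ℤ → Prop) : Finset (ℤ × ℤ) :=
  (EC (64 * L) (70 * L)).filter (fun e => ∃ e', rp (64 * L) e' = e ∧ Z e')

lemma mem_EZ {L : ℤ} {Z : ℤ × ℤ → Prop} {e : ℤ × ℤ} :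
    e ∈ EZ L Z ↔ e ∈ EC (64 * L) (70 * L) ∧ ∃ e', rp (64 * L) e' = e ∧ Z e' := by
  classical
  unfold EZ
  rw [mem_filter]

lemma EZ_sub (L : ℤ) (Z : ℤ × ℤ → Prop) : EZ L Z ⊆ EC (64 * L) (70 * L) :=
  fun _ h => (mem_EZ.1 h).1

lemma EZ_disj {L h : ℤ} (hL : 16 ≤ L) (h1 : -(2 * L) ≤ h) (h2 : h ≤ 2 * L) :
    Disjoint (EZ L (Zp L h)) (EZ L (Zm L h)) := by
  rw [Finset.disjoint_left]
  intro e he he'
  rw [mem_EZ] at he he'
  obtain ⟨-, e1, g1, g2⟩ := he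
  obtain ⟨-, e2, g3, g4⟩ := he'
  have k1 := rp_sum (64 * L) e1
  have k2 := rp_sum (64 * L) e2
  rw [g1] at k1
  rw [g3] at k2
  unfold Zp at g2
  unfold Zm at g4
  rcases g2 with g2 | g2
  · rcases g4 with g4 | g4 <;> omega
  · rcases g4 with g4 | g4
    · omega
    · have h5 := rp_inj (n := 64 * L) (F := {e1, e2}) (by
        intro y hy y' hy'
        rw [mem_insert, mem_singleton] at hy hy'
        rcases hy with rfl | rfl <;> rcases hy' with rfl | rfl <;> omega)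
        (by simp) (by simp) (g1.trans g3.symm)
      rw [h5] at g2
      omega

lemma EZ_mem {L : ℤ} {Z : ℤ × ℤ → Prop} (hL : 1 ≤ L) {e : ℤ × ℤ} (h1 : -(70 * L) ≤ e.1 + e.2)
    (h2 : e.1 + e.2 ≤ 70 * L) (h3 : (e.1 + e.2) % 2 = 1) (h : Z e) : rp (64 * L) e ∈ EZ L Z := by
  rw [mem_EZ]
  exact ⟨rp_mem_EC (by omega) h1 h2 h3, e, rfl, h⟩

lemma zone_up {s L ρ t h δ : ℤ} (hL : 16 ≤ L) (hG : Geo s L ρ t (t + s) (24 * L) (16 * L))
    (hδ : 0 ≤ δ ∧ δ ≤ 1) (hh : h < 2 * t - 4 * s - δ) :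
    ∀ k < 20, ∀ e ∈ Wd (rc s L ρ t (t + s) (24 * L) (16 * L) k),
      rp (64 * L) (e - (δ, δ)) ∈ EZ L (Zp L h) := by
  obtain ⟨h1, h2, h3, ⟨h4, h4'⟩, h5, h6, h7, h8, h9⟩ := hG
  intro k hk e he
  have hb := mem_Bx.1 he
  have hpar := hb.2.2
  refine EZ_mem (by omega) ?_ ?_ ?_ ?_
  · simp only [Prod.fst_sub, Prod.snd_sub]
    clear hpar
    interval_cases k <;> simp [rc] at hb <;> omega
  · simp only [Prod.fst_sub, Prod.snd_sub]
    clear hpar
    interval_cases k <;> simp [rc] at hb <;> omega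
  · simp only [Prod.fst_sub, Prod.snd_sub]
    omega
  · unfold Zp
    simp only [Prod.fst_sub, Prod.snd_sub]
    clear hpar
    interval_cases k <;> simp [rc] at hb <;> omega

lemma zone_down {s L ρ t h δ : ℤ} (hL : 16 ≤ L) (hG : Geo s L ρ t (-(24 * L)) (t + 2 * s) (-(24 * L)))
    (hδ : 0 ≤ δ ∧ δ ≤ 1) (hh : 2 * t + 4 * s - δ ≤ h) :
    ∀ k < 20, ∀ e ∈ Wd (rc s L ρ t (-(24 * L)) (t + 2 * s) (-(24 * L)) k),
      rp (64 * L) (e - (δ, δ)) ∈ EZ L (Zm L h) := by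
  obtain ⟨h1, h2, h3, ⟨h4, h4'⟩, h5, h6, h7, h8, h9⟩ := hG
  intro k hk e he
  have hb := mem_Bx.1 he
  have hpar := hb.2.2
  refine EZ_mem (by omega) ?_ ?_ ?_ ?_
  · simp only [Prod.fst_sub, Prod.snd_sub]
    clear hpar
    interval_cases k <;> simp [rc] at hb <;> omega
  · simp only [Prod.fst_sub, Prod.snd_sub]
    clear hpar
    interval_cases k <;> simp [rc] at hb <;> omega
  · simp only [Prod.fst_sub, Prod.snd_sub]
    omega
  · unfold Zm
    simp only [Prod.fst_sub, Prod.snd_sub]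
    clear hpar
    interval_cases k <;> simp [rc] at hb <;> omega

/-! ### events in sets of labels -/

def SEv (x : Rc) (S : Set (ℤ × ℤ)) : Prop :=
  (x.1 = true → ∃ p, HP S x.2.1 x.2.2.1 x.2.2.2.1 x.2.2.2.2 p) ∧
    (x.1 = false → ∃ p, VP S x.2.1 x.2.2.1 x.2.2.2.1 x.2.2.2.2 p)

lemma SEv_of {x : Rc} {η : Finset (ℤ × ℤ)} {S : Set (ℤ × ℤ)} (h : Ev x η)
    (hS : ∀ e ∈ η, e ∈ Wd x → e ∈ S) : SEv x S := by
  refine ⟨fun h1 => ?_, fun h1 => ?_⟩
  · obtain ⟨p, q, a1, a2, a3, a4⟩ := h.1 h1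
    exact ⟨p, _, q, fun e he => hS e (mem_inter.1 he).1 (mem_inter.1 he).2, inter_subset_right,
      a1, a2, a3, a4⟩
  · obtain ⟨p, q, a1, a2, a3, a4⟩ := h.2 h1
    exact ⟨p, _, q, fun e he => hS e (mem_inter.1 he).1 (mem_inter.1 he).2, inter_subset_right,
      a1, a2, a3, a4⟩

/-- the final connection around the cylinder -/
theorem fin_chain {S : Set (ℤ × ℤ)} {s L ρ t va vb y0 : ℤ} (hG : Geo s L ρ t va vb y0)
    (hS : ∀ e, e ∈ S → e + (2 * (64 * L), -(2 * (64 * L))) ∈ S)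
    (h1 : va ≤ t + s) (h2 : t + 2 * s ≤ vb) (h3 : va ≤ y0) (h4 : y0 + 8 * L ≤ vb)
    (hE : ∀ k, 3 ≤ k → k < 20 → SEv (rc s L ρ t va vb y0 k) S) {v q z : ℤ × ℤ}
    (hvq : CoS S v q) (hzq : CoS S z q) (hz : HP S (3 * L) (4 * L) (t + s) (t + 2 * s) z) :
    CoS S v (v + (64 * L, -(64 * L))) := by
  have hL : 1 ≤ L := by have := hG.hρ; have := hG.hρ2; have := hG.hs; omega
  obtain ⟨r, hr⟩ : ∃ r, VP S (3 * L) (4 * L) va vb r := by
    have := (hE 3 le_rfl (by norm_num)).2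
    simpa [rc] using this
  have hw := wind_chain hL rfl hS (y0 := y0) (va := va) (vb := vb) (by
      intro i hi
      have := (hE (4 + i) (by omega) (by omega)).1
      have e1 : ¬ (4 + i = 0) := by omega
      have e2 : ¬ (4 + i = 1) := by omega
      have e3 : ¬ (4 + i = 2) := by omega
      have e4 : ¬ (4 + i = 3) := by omega
      have e5 : 4 + i < 12 := by omega
      have e6 : 4 + i - 4 = i := by omega
      simpa [rc, e1, e2, e3, e4, e5, e6] using this) (by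
      intro i hi
      have := (hE (12 + i) (by omega) (by omega)).2
      have e1 : ¬ (12 + i = 0) := by omega
      have e2 : ¬ (12 + i = 1) := by omega
      have e3 : ¬ (12 + i = 2) := by omega
      have e4 : ¬ (12 + i = 3) := by omega
      have e5 : ¬ (12 + i < 12) := by omega
      have e6 : 12 + i - 12 = i := by omega
      simpa [rc, e1, e2, e3, e4, e5, e6] using this) hr h3 h4
  have hzr : CoS S z r := hz.meet hr le_rfl le_rfl h1 h2
  have hvr : CoS S v r := (hvq.trans hzq.symm).trans hzr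
  exact (hvr.trans hw).trans (CoS.shift hS hvr).symm

/-! ### the window and the explored set -/

noncomputable def FW (L : ℤ) : Finset (ℤ × ℤ) := Bx (-(5 * L)) (5 * L) (-(25 * L)) (25 * L)

lemma rp_inj_FW {L : ℤ} (hL : 1 ≤ L) : Set.InjOn (rp (64 * L)) (FW L : Set (ℤ × ℤ)) := by
  refine rp_inj ?_
  intro e he e' he'
  have h1 := mem_Bx.1 he
  have h2 := mem_Bx.1 he'
  omega

lemma rp_FW_mem {L : ℤ} (hL : 1 ≤ L) {e : ℤ × ℤ} (he : e ∈ FW L) :
    rp (64 * L) e ∈ EC (64 * L) (70 * L) := by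
  have h1 := mem_Bx.1 he
  exact rp_mem_EC (by omega) (by omega) (by omega) h1.2.2

lemma BE_sub_FW {r L : ℤ} (hr : r ≤ L) (hL : 1 ≤ L) : H75.TwoArm.BE r (2 * L) ⊆ FW L := by
  intro e he
  rw [BE, mem_Bx] at he
  rw [FW, mem_Bx]; omega

/-- the explored labels -/
noncomputable def UT (r L : ℤ) (c : ℤ × ℤ) (ω : Finset (ℤ × ℤ)) : Finset (ℤ × ℤ) :=
  (UU (BE r (2 * L)) (pull (64 * L) (FW L) ω) c).image (rp (64 * L))

lemma pull_mix {r L : ℤ} (hr : r ≤ L) (hL : 1 ≤ L) (c : ℤ × ℤ) (ω ω' : Finset (ℤ × ℤ)) :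
    pull (64 * L) (FW L) (mix (UT r L c ω) ω ω') =
      mix (UU (BE r (2 * L)) (pull (64 * L) (FW L) ω) c) (pull (64 * L) (FW L) ω)
        (pull (64 * L) (FW L) ω') := by
  have hk : ∀ e ∈ FW L, (rp (64 * L) e ∈ UT r L c ω ↔
      e ∈ UU (BE r (2 * L)) (pull (64 * L) (FW L) ω) c) := by
    intro e he
    unfold UT
    rw [mem_image]
    constructor
    · rintro ⟨e', h1, h2⟩
      have := rp_inj_FW hL (mem_coe.2 (BE_sub_FW hr hL (UU_sub' _ _ _ h1))) (mem_coe.2 he) h2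
      rwa [this] at h1
    · intro h
      exact ⟨e, h, rfl⟩
  ext e
  rw [mem_pull, mem_mix, mem_mix, mem_pull, mem_pull]
  constructor
  · rintro ⟨h1, h2⟩
    rw [hk e h1] at h2
    tauto
  · rintro (⟨⟨h1, h2⟩, h3⟩ | ⟨⟨h1, h2⟩, h3⟩)
    · exact ⟨h1, Or.inl ⟨h2, (hk e h1).2 h3⟩⟩
    · exact ⟨h1, Or.inr ⟨h2, fun h => h3 ((hk e h1).1 h)⟩⟩

lemma UT_mix {r L : ℤ} (hr : r ≤ L) (hL : 1 ≤ L) (c : ℤ × ℤ) (ω ω' : Finset (ℤ × ℤ)) :
    UT r L c (mix (UT r L c ω) ω ω') = UT r L c ω := by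
  have h : ∀ η, UT r L c η = (UU (BE r (2 * L)) (pull (64 * L) (FW L) η) c).image (rp (64 * L)) :=
    fun _ => rfl
  rw [h (mix _ _ _), pull_mix hr hL, UU_mix, ← h]

lemma not_UT {r L : ℤ} (hr : r ≤ L) (hr0 : 0 ≤ r) (hL : 1 ≤ L) {c : ℤ × ℤ} {ω : Finset (ℤ × ℤ)}
    {e : ℤ × ℤ} (h : (5 * L ≤ e.1 ∧ e.1 ≤ 20 * L) ∨ 10 * L ≤ e.1 + e.2 ∨ e.1 + e.2 ≤ -(10 * L)) :
    rp (64 * L) e ∉ UT r L c ω := by
  unfold UT
  rw [mem_image]
  rintro ⟨e', h1, h2⟩
  have h3 := UU_sub' _ _ _ h1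
  rw [BE, mem_Bx] at h3
  have h4 := rp_sum (64 * L) e
  have h5 := rp_sum (64 * L) e'
  rw [h2] at h5
  rcases h with h | h
  · have h6 := rp_inj (n := 64 * L) (F := {e, e'}) (by
      intro y hy y' hy'
      rw [mem_insert, mem_singleton] at hy hy'
      rcases hy with rfl | rfl <;> rcases hy' with rfl | rfl <;> omega)
      (by simp) (by simp) h2.symm
    rw [← h6] at h3
    omega
  · omega

lemma Ev_up {n : ℤ} {x : Rc} {F ω : Finset (ℤ × ℤ)} (h : Ev x (pull n (Wd x) ω)) (hF : Wd x ⊆ F) :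
    Ev x (pull n F ω) := by
  refine Ev_inc x _ _ ?_ h
  intro e he
  rw [mem_pull] at he ⊢
  exact ⟨hF he.1, he.2⟩

lemma Evd_up {n : ℤ} {x : Rc} {F E ω : Finset (ℤ × ℤ)} (h : Ev x (pulld n (Wd x) (du E ω)))
    (hF : ∀ e ∈ Wd x, e - (1, 1) ∈ F) : Ev x (du F (pull n F ω)) := by
  refine Ev_inc x _ _ ?_ h
  intro e he
  rw [mem_pulld_du, mem_PD] at he
  rw [mem_du', mem_pull]
  exact ⟨hF e he.1, fun h => he.2.2 h.2⟩

/-- facts about the hook rectangles -/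
lemma Wd_hook {s L ρ t va vb y0 : ℤ} (hG : Geo s L ρ t va vb y0) (δ : ℤ)
    (hδ : 0 ≤ δ ∧ δ ≤ 1) : ∀ k < 3, ∀ e ∈ Wd (rc s L ρ t va vb y0 k), e - (δ, δ) ∈ FW L ∨
      (e.1 + e.2) % 2 ≠ 1 := by
  obtain ⟨h1, h2, h3, ⟨h4, h4'⟩, h5, h6, h7, h8, h9⟩ := hG
  intro k hk e he
  have hb := mem_Bx.1 he
  have hpar := hb.2.2
  left
  rw [FW, mem_Bx]
  simp only [Prod.fst_sub, Prod.snd_sub]
  refine ⟨?_, ?_, ?_⟩
  · clear hpar
    interval_cases k <;> simp [rc] at hb <;> omega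
  · clear hpar
    interval_cases k <;> simp [rc] at hb <;> omega
  · omega

lemma Wd_far {s L ρ t va vb y0 : ℤ} (hL : 16 ≤ L) (hG : Geo s L ρ t va vb y0) (δ : ℤ)
    (hδ : 0 ≤ δ ∧ δ ≤ 1) (hfar : 16 * L ≤ y0 ∨ y0 ≤ -(24 * L)) :
    ∀ k, 3 ≤ k → k < 20 → ∀ e ∈ Wd (rc s L ρ t va vb y0 k),
      (5 * L ≤ e.1 - δ ∧ e.1 - δ ≤ 20 * L) ∨ 10 * L ≤ e.1 - δ + (e.2 - δ) ∨
        e.1 - δ + (e.2 - δ) ≤ -(10 * L) := by
  obtain ⟨h1, h2, h3, ⟨h4, h4'⟩, h5, h6, h7, h8, h9⟩ := hG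
  intro k hk0 hk e he
  have hb := mem_Bx.1 he
  have hpar := hb.2.2
  clear hpar
  interval_cases k <;> simp [rc] at hb <;> omega

lemma HC_of_Ev {s L ρ t va vb y0 : ℤ} {η : Finset (ℤ × ℤ)}
    (h : ∀ k < 3, Ev (rc s L ρ t va vb y0 k) η) :
    HC (ρ - 2 * s) (4 * L) (t + s) (t + 2 * s) η ∧
    VC (ρ - 2 * s) (ρ - s) (t - 2 * s) (t + 2 * s) η ∧
    HC (ρ - 2 * s) (ρ + 1) (t - 2 * s) (t - s) η := by
  refine ⟨?_, ?_, ?_⟩
  · have := (h 0 (by norm_num)).1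
    simpa [rc] using this
  · have := (h 1 (by norm_num)).2
    simpa [rc] using this
  · have := (h 2 (by norm_num)).1
    simpa [rc] using this

/-- gluing, open arm -/
theorem glue_primal {s r L t1 t2 va vb y0 : ℤ} {c : ℤ × ℤ} {ω ω' : Finset (ℤ × ℤ)}
    (hG : Geo s L r t1 va vb y0) (hrL : r ≤ L) (hc : C0 c) (ht1 : |t1| ≤ L)
    (h12 : 16 * s ≤ |t1 - t2|)
    (hE : East r (2 * L) (pull (64 * L) (FW L) ω) c t1 t2) (h1 : va ≤ t1 + s)
    (h2 : t1 + 2 * s ≤ vb) (h3 : va ≤ y0) (h4 : y0 + 8 * L ≤ vb)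
    (hfar : 16 * L ≤ y0 ∨ y0 ≤ -(24 * L))
    (hEv : ∀ k < 20, Ev (rc s L r t1 va vb y0 k)
      (pull (64 * L) (Wd (rc s L r t1 va vb y0 k)) ω')) :
    CoS (PB (64 * L) (mix (UT r L c ω) ω ω')) (vx c) (vx c + (64 * L, -(64 * L))) := by
  have hs := hG.hs
  have hρ := hG.hρ
  have hL : 16 ≤ L := by omega
  have ht := abs_le.1 ht1
  have hsubF : ∀ k < 3, Wd (rc s L r t1 va vb y0 k) ⊆ FW L := by
    intro k hk e he
    have := Wd_hook hG 0 (by omega) k hk e he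
    have hb := (mem_Bx.1 he).2.2
    rcases this with h | h
    · have h0 : e - ((0, 0) : ℤ × ℤ) = e := by
        refine Prod.ext ?_ ?_ <;> simp
      rwa [h0] at h
    · omega
  obtain ⟨⟨p, q, hp, hp1, hq1, hpq⟩, hO2, hO3⟩ := HC_of_Ev
    (fun k hk => Ev_up (hEv k (by omega)) (hsubF k hk))
  have arm := hook_open' (L := 2 * L) (X := 4 * L) (by omega) (by omega) hs (by omega) (by omega)
    (by omega) (by omega) hc hE hp hp1 hq1 hpq hO2 hO3
  rw [← pull_mix hrL (by omega)] at arm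
  have arm' : CoS (PB (64 * L) (mix (UT r L c ω) ω ω')) (vx c) q :=
    co_toS (fun e he => (mem_pull.1 he).2) arm
  obtain ⟨z, hz, hz1, hzq⟩ := right_part (m := 3 * L) (by omega) (by omega) hp hp1 hq1 hpq
  have hfresh : ∀ e ∈ pull (64 * L) (FW L) ω' ∩ Bx (3 * L) (4 * L) (t1 + s) (t1 + 2 * s),
      e ∈ PB (64 * L) (mix (UT r L c ω) ω ω') := by
    intro e he
    rw [mem_inter, mem_pull] at he
    rw [mem_PB, mem_mix]
    right
    refine ⟨he.1.2, not_UT hrL (by omega) (by omega) ?_⟩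
    have := mem_Bx.1 he.2
    omega
  refine fin_chain hG PB_shift h1 h2 h3 h4 ?_ (z := z) (q := q) arm' (co_toS hfresh hzq)
    ⟨_, q, hfresh, inter_subset_right, hz, hz1, hq1, hzq⟩
  intro k hk0 hk
  refine SEv_of (hEv k hk) ?_
  intro e he hW
  rw [mem_PB, mem_mix]
  right
  refine ⟨(mem_pull.1 he).2, not_UT hrL (by omega) (by omega) ?_⟩
  have := Wd_far (by omega) hG 0 (by omega) hfar k hk0 hk e hW
  simpa using this

/-- gluing, dual arm -/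
theorem glue_dual {s r L t1 t2 va vb y0 : ℤ} {c : ℤ × ℤ} {ω ω' : Finset (ℤ × ℤ)}
    (hG : Geo s L (r + 1) (t2 + 1) va vb y0) (hsr : 16 * s ≤ r) (hrL : r ≤ L) (hc : C0 c)
    (ht2 : |t2| ≤ L) (h12 : 16 * s ≤ |t1 - t2|)
    (hE : East r (2 * L) (pull (64 * L) (FW L) ω) c t1 t2) (h1 : va ≤ t2 + 1 + s)
    (h2 : t2 + 1 + 2 * s ≤ vb) (h3 : va ≤ y0) (h4 : y0 + 8 * L ≤ vb)
    (hfar : 16 * L ≤ y0 ∨ y0 ≤ -(24 * L))
    (hEv : ∀ k < 20, Ev (rc s L (r + 1) (t2 + 1) va vb y0 k)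
      (pulld (64 * L) (Wd (rc s L (r + 1) (t2 + 1) va vb y0 k))
        (du (EC (64 * L) (70 * L)) ω'))) :
    CoS (PD (64 * L) (EC (64 * L) (70 * L)) (mix (UT r L c ω) ω ω')) (fi c)
      (fi c + (64 * L, -(64 * L))) := by
  have hs := hG.hs
  have hL : 16 ≤ L := by omega
  have ht := abs_le.1 ht2
  have hsubF : ∀ k < 3, ∀ e ∈ Wd (rc s L (r + 1) (t2 + 1) va vb y0 k), e - (1, 1) ∈ FW L := by
    intro k hk e he
    have := Wd_hook hG 1 (by omega) k hk e he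
    have hb := (mem_Bx.1 he).2.2
    rcases this with h | h
    · exact h
    · omega
  obtain ⟨⟨p, q, hp, hp1, hq1, hpq⟩, hO2, hO3⟩ := HC_of_Ev
    (fun k hk => Evd_up (hEv k (by omega)) (hsubF k hk))
  have arm := hook_dual' (L := 2 * L) (X := 4 * L) (by omega) (by omega) hs (by omega) (by omega)
    (by omega) (by omega) (BE_sub_FW hrL (by omega)) hc hE hp hp1 hq1 hpq hO2
    (by rw [show r + 2 = r + 1 + 1 by ring]; exact hO3)
  rw [← pull_mix hrL (by omega)] at arm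
  have arm' : CoS (PD (64 * L) (EC (64 * L) (70 * L)) (mix (UT r L c ω) ω ω')) (fi c) q := by
    refine co_toS (fun e he => ?_) arm
    rw [mem_du', mem_pull] at he
    exact ⟨rp_FW_mem (by omega) he.1, fun h => he.2 ⟨he.1, h⟩⟩
  obtain ⟨z, hz, hz1, hzq⟩ := right_part (m := 3 * L) (by omega) (by omega) hp hp1 hq1 hpq
  have hfresh : ∀ e ∈ du (FW L) (pull (64 * L) (FW L) ω') ∩
      Bx (3 * L) (4 * L) (t2 + 1 + s) (t2 + 1 + 2 * s),
      e ∈ PD (64 * L) (EC (64 * L) (70 * L)) (mix (UT r L c ω) ω ω') := by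
    intro e he
    rw [mem_inter, mem_du', mem_pull] at he
    rw [mem_PD, mem_mix]
    refine ⟨rp_FW_mem (by omega) he.1.1, ?_⟩
    rintro (⟨-, h⟩ | ⟨h, -⟩)
    · refine not_UT hrL (by omega) (by omega) ?_ h
      have := mem_Bx.1 he.2
      simp only [Prod.fst_sub, Prod.snd_sub]
      omega
    · exact he.1.2 ⟨he.1.1, h⟩
  refine fin_chain hG PD_shift h1 h2 h3 h4 ?_ (z := z) (q := q) arm' (co_toS hfresh hzq)
    ⟨_, q, hfresh, inter_subset_right, hz, hz1, hq1, hzq⟩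
  intro k hk0 hk
  refine SEv_of (hEv k hk) ?_
  intro e he hW
  rw [mem_pulld_du, mem_PD] at he
  rw [mem_PD, mem_mix]
  refine ⟨he.2.1, ?_⟩
  rintro (⟨-, h⟩ | ⟨h, -⟩)
  · refine not_UT hrL (by omega) (by omega) ?_ h
    have := Wd_far (by omega) hG 1 (by omega) hfar k hk0 hk e hW
    simpa using this
  · exact he.2.2 h

/-! ### probability -/

lemma geo_up {s r L t : ℤ} (hs : 1 ≤ s) (h1 : 16 * s ≤ r) (h2 : r ≤ L + 1)
    (h3 : -(L + 1) ≤ t ∧ t ≤ L + 1) : Geo s L r t (t + s) (24 * L) (16 * L) := by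
  constructor <;> omega

lemma geo_down {s r L t : ℤ} (hs : 1 ≤ s) (h1 : 16 * s ≤ r) (h2 : r ≤ L + 1)
    (h3 : -(L + 1) ≤ t ∧ t ≤ L + 1) : Geo s L r t (-(24 * L)) (t + 2 * s) (-(24 * L)) := by
  constructor <;> omega

/-- both clusters wind (finite version) -/
def WW (L : ℤ) (c : ℤ × ℤ) (ω : Finset (ℤ × ℤ)) : Prop :=
  CoS (PB (64 * L) ω) (vx c) (vx c + (64 * L, -(64 * L))) ∧
  CoS (PD (64 * L) (EC (64 * L) (70 * L)) ω) (fi c) (fi c + (64 * L, -(64 * L)))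

lemma Good_transfer {s r L : ℤ} (hs : 1 ≤ s) (h1 : 16 * s ≤ r) (h2 : r ≤ L) (c : ℤ × ℤ) (w : ℤ) :
    Pr (EC (64 * L) (70 * L)) (fun ω => Good r L w (pull (64 * L) (FW L) ω) c) =
      Pr (BB (2 * L)) (fun ω => Good r L w ω c) := by
  have hL : 1 ≤ L := by omega
  have hsub : BB (2 * L) ⊆ FW L := by
    intro e he
    rw [BB, mem_Bx] at he
    rw [FW, mem_Bx]; omega
  have e1 : Pr (EC (64 * L) (70 * L)) (fun ω => Good r L w (pull (64 * L) (FW L) ω) c) =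
      Pr (FW L) (fun ω => Good r L w ω c) := by
    unfold pull
    exact Pr_pull (rp_inj_FW hL) (fun e he => rp_FW_mem hL he) (fun ω => Good r L w ω c)
  rw [e1, ← Pr_restrict hsub]
  apply Pr_congr
  intro ω _
  symm
  apply Good_local
  intro e he
  rw [mem_inter, and_iff_left]
  rw [H75.TwoArm.BE, mem_Bx] at he
  rw [BB, mem_Bx]; omega

theorem prob_glue (K : ℕ) : ∃ q : ℝ, 0 < q ∧ ∀ s r L : ℤ, 1 ≤ s → 16 * s ≤ r → r ≤ L →
    L ≤ K * s → ∀ c, C0 c → q * Pr (BB (2 * L)) (fun ω => Good r L (16 * s) ω c) ≤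
      Pr (EC (64 * L) (70 * L)) (WW L c) := by
  obtain ⟨q, hq, hpr⟩ := prob_two K
  refine ⟨q, hq, ?_⟩
  intro s r L hs h1 h2 hLK c hc
  have hL : 16 ≤ L := by omega
  rw [← Good_transfer hs h1 h2, mul_comm]
  apply resample (EC (64 * L) (70 * L)) (UT r L c) (fun ω ω' _ _ => UT_mix h2 (by omega) c ω ω')
    (WW L c) (fun ω => Good r L (16 * s) (pull (64 * L) (FW L) ω) c)
    (fun ω ω' => ∃ t1 t2, East r (2 * L) (pull (64 * L) (FW L) ω) c t1 t2 ∧ |t1| ≤ L ∧ |t2| ≤ L ∧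
      16 * s ≤ |t1 - t2| ∧
      (((∀ k ∈ range 20, Ev (rc s L r t1 (t1 + s) (24 * L) (16 * L) k)
          (pull (64 * L) (Wd (rc s L r t1 (t1 + s) (24 * L) (16 * L) k)) ω')) ∧
        (∀ k ∈ range 20, Ev (rc s L (r + 1) (t2 + 1) (-(24 * L)) (t2 + 1 + 2 * s) (-(24 * L)) k)
          (pulld (64 * L) (Wd (rc s L (r + 1) (t2 + 1) (-(24 * L)) (t2 + 1 + 2 * s) (-(24 * L)) k))
            (du (EC (64 * L) (70 * L)) ω')))) ∨
       ((∀ k ∈ range 20, Ev (rc s L r t1 (-(24 * L)) (t1 + 2 * s) (-(24 * L)) k)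
          (pull (64 * L) (Wd (rc s L r t1 (-(24 * L)) (t1 + 2 * s) (-(24 * L)) k)) ω')) ∧
        (∀ k ∈ range 20, Ev (rc s L (r + 1) (t2 + 1) (t2 + 1 + s) (24 * L) (16 * L) k)
          (pulld (64 * L) (Wd (rc s L (r + 1) (t2 + 1) (t2 + 1 + s) (24 * L) (16 * L) k))
            (du (EC (64 * L) (70 * L)) ω'))))))
  · rintro ω _ ⟨t1, t2, hE, ht1, ht2, h12⟩
    have ht1' := abs_le.1 ht1
    have ht2' := abs_le.1 ht2
    rcases lt_or_gt_of_ne (show t1 ≠ t2 by rintro rfl; simp at h12; omega) with hlt | hlt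
    · have h12' : 16 * s ≤ t2 - t1 := by
        rw [abs_sub_comm, abs_of_nonneg (by omega)] at h12; exact h12
      refine (hpr s L r t1 (-(24 * L)) (t1 + 2 * s) (-(24 * L)) (r + 1) (t2 + 1) (t2 + 1 + s)
        (24 * L) (16 * L) hLK (geo_down hs h1 (by omega) (by omega))
        (geo_up hs (by omega) (by omega) (by omega)) (EZ L (Zm L (t1 + t2)))
        (EZ L (Zp L (t1 + t2))) (EZ_sub _ _) (EZ_sub _ _)
        (EZ_disj hL (by omega) (by omega)).symm ?_ ?_).trans ?_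
      · intro k hk e he
        have := zone_down (h := t1 + t2) (δ := 0) hL (geo_down hs h1 (by omega) (by omega))
          (by omega) (by omega) k hk e he
        have h0 : e - ((0, 0) : ℤ × ℤ) = e := by
          refine Prod.ext ?_ ?_ <;> simp
        rwa [h0] at this
      · exact zone_up (h := t1 + t2) (δ := 1) hL (geo_up hs (by omega) (by omega) (by omega))
          (by omega) (by omega)
      · apply Pr_mono
        intro ω' _ h
        exact ⟨t1, t2, hE, ht1, ht2, h12, Or.inr h⟩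
    · have h12' : 16 * s ≤ t1 - t2 := by
        rw [abs_of_nonneg (by omega)] at h12; exact h12
      refine (hpr s L r t1 (t1 + s) (24 * L) (16 * L) (r + 1) (t2 + 1) (-(24 * L))
        (t2 + 1 + 2 * s) (-(24 * L)) hLK (geo_up hs h1 (by omega) (by omega))
        (geo_down hs (by omega) (by omega) (by omega)) (EZ L (Zp L (t1 + t2)))
        (EZ L (Zm L (t1 + t2))) (EZ_sub _ _) (EZ_sub _ _)
        (EZ_disj hL (by omega) (by omega)) ?_ ?_).trans ?_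
      · intro k hk e he
        have := zone_up (h := t1 + t2) (δ := 0) hL (geo_up hs h1 (by omega) (by omega))
          (by omega) (by omega) k hk e he
        have h0 : e - ((0, 0) : ℤ × ℤ) = e := by
          refine Prod.ext ?_ ?_ <;> simp
        rwa [h0] at this
      · exact zone_down (h := t1 + t2) (δ := 1) hL (geo_down hs (by omega) (by omega) (by omega))
          (by omega) (by omega)
      · apply Pr_mono
        intro ω' _ h
        exact ⟨t1, t2, hE, ht1, ht2, h12, Or.inl h⟩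
  · rintro ω ω' _ _ _ ⟨t1, t2, hE, ht1, ht2, h12, ⟨hp, hd⟩ | ⟨hp, hd⟩⟩
    · have ht1' := abs_le.1 ht1
      have ht2' := abs_le.1 ht2
      exact ⟨glue_primal (geo_up hs h1 (by omega) (by omega)) h2 hc ht1 h12 hE (by omega)
          (by omega) (by omega) (by omega) (Or.inl le_rfl) (fun k hk => hp k (mem_range.2 hk)),
        glue_dual (geo_down hs (by omega) (by omega) (by omega)) h1 h2 hc ht2 h12 hE (by omega)
          (by omega) (by omega) (by omega) (Or.inr le_rfl) (fun k hk => hd k (mem_range.2 hk))⟩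
    · have ht1' := abs_le.1 ht1
      have ht2' := abs_le.1 ht2
      exact ⟨glue_primal (geo_down hs h1 (by omega) (by omega)) h2 hc ht1 h12 hE (by omega)
          (by omega) (by omega) (by omega) (Or.inr le_rfl) (fun k hk => hp k (mem_range.2 hk)),
        glue_dual (geo_up hs (by omega) (by omega) (by omega)) h1 h2 hc ht2 h12 hE (by omega)
          (by omega) (by omega) (by omega) (Or.inl le_rfl) (fun k hk => hd k (mem_range.2 hk))⟩

end Pool.Agent.H65.Two
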