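import Mathlib
import Pool.Agent.H65.Two.Glue
import Pool.Agent.H75.TwoArm.Symm

set_option autoImplicit false
open Finset

/-! Two arms on the cylinder: the comparison with the plane (good exits). -/

namespace Pool.Agent.H65.Two

open Pool.Agent.H75.Perc hiding BE BB UU UU_mix
open Pool.Agent.H75.TwoArm
open Pool.Agent.H75.TwoArm.CorrAux
open Pool.Agent.H63.Perc (AdS CoS rp EC mem_EC pull mem_pull pull_sub pull_mono rp_sum rp_inj
  rp_mem_EC rp_shift co_toS Pr_pull tr mem_tr coins_tr coins_mono)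
open Pool.Agent.H63.Bulk (PB mem_PB PB_shift BConf bulkMeasure bulkGraph phB phB_inj phB_rp phB_val
  bulk_adj BWinds)

/-! ### from finite configurations to the infinite cylinder -/

lemma dual_adj {n : ℕ} {L : ℤ} {ω : BConf n} {f g : ℤ × ℤ}
    (h : AdS (PD n (EC n L) (tr (EC n L) (phB n) ω)) f g) :
    (dualGraph n ω).Adj (f - (1, 1)) (g - (1, 1)) := by
  obtain ⟨h1, h3⟩ := h
  rw [mem_PD, mem_tr] at h3
  have h4 : ω (phB n (f + g - (1, 1))) = false := by
    rw [← phB_rp]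
    by_contra hne
    exact h3.2 ⟨h3.1, by simpa using hne⟩
  have hu := unit_cases h1
  unfold dualGraph
  rw [SimpleGraph.fromRel_adj]
  have hne : f - (1, 1) ≠ g - (1, 1) := by
    intro h
    have := sub_left_injective h
    subst this
    omega
  refine ⟨hne, ?_⟩
  rcases hu with ⟨a, b⟩ | ⟨a, b⟩ | ⟨a, b⟩ | ⟨a, b⟩
  · left
    refine Or.inl ⟨Prod.ext (by simp only [Prod.fst_sub]; omega)
      (by simp only [Prod.snd_sub]; omega), ?_⟩
    rw [phB_val (f.1 + f.2 - 1) f.1 false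
      (by simp only [Prod.fst_add, Prod.snd_add, Prod.fst_sub, Prod.snd_sub]; omega)
      (by simp only [Prod.fst_add, Prod.fst_sub]; omega)
      (by simp only [Prod.fst_add, Prod.fst_sub, Bool.false_eq_true, iff_false]; omega)] at h4
    simp only [Prod.fst_sub, Prod.snd_sub]
    rw [show f.1 - 1 + 1 + (f.2 - 1) = f.1 + f.2 - 1 by ring, show f.1 - 1 + 1 = f.1 by ring]
    exact h4
  · left
    refine Or.inr ⟨Prod.ext (by simp only [Prod.fst_sub]; omega)
      (by simp only [Prod.snd_sub]; omega), ?_⟩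
    rw [phB_val (f.1 + f.2 - 1) (f.1 - 1) true
      (by simp only [Prod.fst_add, Prod.snd_add, Prod.fst_sub, Prod.snd_sub]; omega)
      (by simp only [Prod.fst_add, Prod.fst_sub]; omega)
      (by simp only [Prod.fst_add, Prod.fst_sub, eq_self_iff_true, iff_true]; omega)] at h4
    simp only [Prod.fst_sub, Prod.snd_sub]
    rw [show f.1 - 1 + (f.2 - 1 + 1) = f.1 + f.2 - 1 by ring]
    exact h4
  · right
    refine Or.inl ⟨Prod.ext (by simp only [Prod.fst_sub]; omega)
      (by simp only [Prod.snd_sub]; omega), ?_⟩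
    rw [phB_val (g.1 + g.2 - 1) g.1 false
      (by simp only [Prod.fst_add, Prod.snd_add, Prod.fst_sub, Prod.snd_sub]; omega)
      (by simp only [Prod.fst_add, Prod.fst_sub]; omega)
      (by simp only [Prod.fst_add, Prod.fst_sub, Bool.false_eq_true, iff_false]; omega)] at h4
    simp only [Prod.fst_sub, Prod.snd_sub]
    rw [show g.1 - 1 + 1 + (g.2 - 1) = g.1 + g.2 - 1 by ring, show g.1 - 1 + 1 = g.1 by ring]
    exact h4
  · right
    refine Or.inr ⟨Prod.ext (by simp only [Prod.fst_sub]; omega)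
      (by simp only [Prod.snd_sub]; omega), ?_⟩
    rw [phB_val (g.1 + g.2 - 1) (g.1 - 1) true
      (by simp only [Prod.fst_add, Prod.snd_add, Prod.fst_sub, Prod.snd_sub]; omega)
      (by simp only [Prod.fst_add, Prod.fst_sub]; omega)
      (by simp only [Prod.fst_add, Prod.fst_sub, eq_self_iff_true, iff_true]; omega)] at h4
    simp only [Prod.fst_sub, Prod.snd_sub]
    rw [show g.1 - 1 + (g.2 - 1 + 1) = g.1 + g.2 - 1 by ring]
    exact h4

lemma vx10 : vx ((1, 0) : ℤ × ℤ) = (0, 0) := by unfold vx; simp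
lemma fi10 : fi ((1, 0) : ℤ × ℤ) = (1, 0) := by unfold fi; simp
lemma vx01 : vx ((0, 1) : ℤ × ℤ) = (0, 0) := by unfold vx; simp
lemma fi01 : fi ((0, 1) : ℤ × ℤ) = (0, 1) := by unfold fi; simp

lemma twoWinds_of_WW {n : ℕ} {L : ℤ} (hn : (n : ℤ) = 64 * L) {ω : BConf n}
    (h : WW L (1, 0) (tr (EC (64 * L) (70 * L)) (phB n) ω)) : TwoWinds n ω := by
  unfold WW at h
  rw [← hn, vx10, fi10] at h
  obtain ⟨h1, h2⟩ := h
  refine ⟨⟨1, one_ne_zero, ?_⟩, ⟨1, one_ne_zero, ?_⟩⟩
  · have h3 : ∀ v, CoS (PB n (tr (EC n (70 * L)) (phB n) ω)) (0, 0) v →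
        (bulkGraph n ω).Reachable (0, 0) v := by
      intro v hv
      induction hv with
      | refl => exact SimpleGraph.Reachable.refl _
      | tail _ hbc ih => exact ih.trans (bulk_adj hbc).reachable
    have h4 := h3 _ h1
    have e2 : ((1 : ℤ) * (n : ℤ), -((1 : ℤ) * (n : ℤ))) = ((0, 0) : ℤ × ℤ) + ((n : ℤ), -(n : ℤ)) := by
      simp
    rw [e2]
    exact h4
  · have h3 : ∀ v, CoS (PD n (EC n (70 * L)) (tr (EC n (70 * L)) (phB n) ω)) (1, 0) v →
        (dualGraph n ω).Reachable ((1, 0) - (1, 1)) (v - (1, 1)) := by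
      intro v hv
      induction hv with
      | refl => exact SimpleGraph.Reachable.refl _
      | tail _ hbc ih => exact ih.trans (dual_adj hbc).reachable
    have h4 := h3 _ h2
    have e1 : ((1, 0) : ℤ × ℤ) - (1, 1) = (0, -1) := by simp
    have e2 : (((1, 0) : ℤ × ℤ) + ((n : ℤ), -(n : ℤ))) - (1, 1) =
        ((0 : ℤ) + 1 * n, (-1 : ℤ) - 1 * n) := by
      refine Prod.ext ?_ ?_ <;> simp <;> ring
    rw [e1, e2] at h4
    exact h4

lemma WW_le {n : ℕ} {L : ℤ} (hn : (n : ℤ) = 64 * L) :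
    Pr (EC (64 * L) (70 * L)) (WW L (1, 0)) ≤ ((bulkMeasure n) {ω | TwoWinds n ω}).toReal := by
  have hinj : Set.InjOn (phB n) (EC (64 * L) (70 * L) : Set (ℤ × ℤ)) := by
    rw [← hn]; exact phB_inj n _
  rw [← coins_tr hinj (WW L (1, 0))]
  exact coins_mono (fun ω hω => twoWinds_of_WW hn hω)

/-! ### the reflection which exchanges the coordinates -/

def sg (n : ℤ) (e : ℤ × ℤ) : ℤ × ℤ := rp n (e.2, e.1)

lemma sg_rp {n : ℤ} (e : ℤ × ℤ) : sg n (rp n e) = rp n (e.2, e.1) := by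
  unfold sg rp
  have h : (e.1 + e.2 - e.1 % (2 * n)) = e.2 + 2 * n * (e.1 / (2 * n)) := by
    have := Int.emod_add_mul_ediv e.1 (2 * n)
    linarith
  have h2 : (e.1 + e.2 - e.1 % (2 * n)) % (2 * n) = e.2 % (2 * n) := by
    rw [h, Int.add_mul_emod_self_left]
  refine Prod.ext ?_ ?_ <;> simp only
  · exact h2
  · rw [h2]; ring

lemma CoS_swap {S T : Set (ℤ × ℤ)} (h : ∀ e : ℤ × ℤ, e ∈ S → (e.2, e.1) ∈ T) {u v : ℤ × ℤ}
    (huv : CoS S u v) : CoS T (u.2, u.1) (v.2, v.1) := by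
  induction huv with
  | refl => exact Relation.ReflTransGen.refl
  | @tail a b _ hab ih =>
    refine Relation.ReflTransGen.tail ih ⟨?_, ?_⟩
    · have := unit_cases hab.1
      have h2 : b - a = (b.1 - a.1, b.2 - a.2) := rfl
      unfold IsUnit4
      simp only [Prod.ext_iff, Prod.mk_sub_mk]
      omega
    · have := h _ hab.2
      exact this

lemma Pr_WW_swap {L : ℤ} (hL : 1 ≤ L) :
    Pr (EC (64 * L) (70 * L)) (WW L (0, 1)) ≤ Pr (EC (64 * L) (70 * L)) (WW L (1, 0)) := by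
  set n := 64 * L with hn
  set E := EC n (70 * L) with hE
  have hmem : ∀ e ∈ E, sg n e ∈ E := by
    intro e he
    have h1 := mem_EC.1 he
    exact rp_mem_EC (by omega) (by simp only; omega) (by simp only; omega) (by simp only; omega)
  have hsg : ∀ e ∈ E, sg n (sg n e) = e := by
    intro e he
    have h1 := mem_EC.1 he
    have h2 : sg n e = rp n (e.2, e.1) := rfl
    rw [h2, sg_rp]
    simp only
    unfold rp
    rw [Int.emod_eq_of_lt (by omega) (by omega)]
    refine Prod.ext ?_ ?_ <;> simp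
  have hinj : Set.InjOn (sg n) (E : Set (ℤ × ℤ)) := by
    intro e he e' he' h
    rw [← hsg e (mem_coe.1 he), ← hsg e' (mem_coe.1 he'), h]
  rw [← Pr_pull hinj hmem (WW L (1, 0))]
  apply Pr_mono
  intro ω hω ⟨h1, h2⟩
  rw [← hn] at h1 h2
  rw [vx01] at h1
  rw [fi01] at h2
  have hkey : ∀ e : ℤ × ℤ, rp n e ∈ E → (rp n (e.2, e.1) ∈ E.filter (fun e => sg n e ∈ ω) ↔
      rp n e ∈ ω) := by
    intro e he
    rw [mem_filter, sg_rp]
    constructor
    · exact fun h => h.2
    · intro h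
      refine ⟨?_, h⟩
      have h3 := mem_EC.1 he
      have h4 := rp_sum n e
      exact rp_mem_EC (by omega) (by simp only; omega) (by simp only; omega) (by simp only; omega)
  unfold WW
  rw [← hn, vx10, fi10]
  constructor
  · have := CoS_swap (T := PB n (E.filter (fun e => sg n e ∈ ω))) (by
      intro e he
      rw [mem_PB] at he ⊢
      exact (hkey e (hω he)).2 he) h1
    simp only [Prod.fst_add, Prod.snd_add, zero_add] at this
    have h5 := CoS.shift PB_shift this
    have e1 : ((0, 0) : ℤ × ℤ) + (n, -n) = (n, -n) := by simp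
    have e2 : ((-n, n) : ℤ × ℤ) + (n, -n) = (0, 0) := by simp
    rw [e1, e2] at h5
    rw [e1]
    exact h5.symm
  · have := CoS_swap (T := PD n E (E.filter (fun e => sg n e ∈ ω))) (by
      intro e he
      rw [mem_PD] at he ⊢
      have h3 := mem_EC.1 he.1
      have h4 := rp_sum n (e - (1, 1))
      have e0 : ((e.2, e.1) : ℤ × ℤ) - (1, 1) = ((e - (1, 1)).2, (e - (1, 1)).1) := rfl
      rw [e0]
      refine ⟨?_, fun h => he.2 ((hkey _ he.1).1 h)⟩
      exact rp_mem_EC (by omega) (by simp only; omega) (by simp only; omega)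
        (by simp only; omega)) h2
    simp only [Prod.fst_add, Prod.snd_add] at this
    have h5 := CoS.shift PD_shift this
    have e1 : ((1, 0) : ℤ × ℤ) + (n, -n) = (1 + n, -n) := by simp
    have e2 : ((1 + -n, 0 + n) : ℤ × ℤ) + (n, -n) = (1, 0) := by
      refine Prod.ext ?_ ?_ <;> simp
    rw [e1] at h5 ⊢
    rw [e2] at h5
    exact h5.symm

/-! ### the reflection in the horizontal axis -/

lemma map_refL_BB (R : ℤ) : (H75.TwoArm.BB R).map refL = H75.TwoArm.BB R := by
  ext e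
  rw [mem_map]
  constructor
  · rintro ⟨x, hx, rfl⟩
    rw [H75.TwoArm.BB, mem_Bx] at hx ⊢
    simp only [refL, Function.Embedding.coeFn_mk]
    omega
  · intro he
    refine ⟨(e.1, -e.2), ?_, ?_⟩
    · rw [H75.TwoArm.BB, mem_Bx] at he ⊢
      simp only
      omega
    · simp [refL]

lemma Pr_Good_ref {r L w : ℤ} (c : ℤ × ℤ) :
    Pr (H75.TwoArm.BB (2 * L)) (fun ω => Good r L w ω (refc c)) =
      Pr (H75.TwoArm.BB (2 * L)) (fun ω => Good r L w ω c) := by
  conv_lhs => rw [← map_refL_BB (2 * L), Pr_map]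
  apply Pr_congr
  intro ω _
  constructor
  · rintro ⟨y1, y2, h1, h2, h3, h4⟩
    refine ⟨-y2, -y1, ?_, by rwa [abs_neg], by rwa [abs_neg], ?_⟩
    · rw [← east_ref, neg_neg, neg_neg]; exact h1
    · rw [show -y2 - -y1 = y1 - y2 by ring]; exact h4
  · rintro ⟨y1, y2, h1, h2, h3, h4⟩
    refine ⟨-y2, -y1, east_ref.2 h1, by rwa [abs_neg], by rwa [abs_neg], ?_⟩
    rw [show -y2 - -y1 = y1 - y2 by ring]; exact h4

/-- Comparison of good exits with two winding clusters on the cylinder of perimeter `64 L`. -/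
theorem gg_le_twoWinds : ∀ K : ℤ, ∃ C : ℝ, ∀ s r L : ℤ, 1 ≤ s → 16 * s ≤ r → r ≤ L → L ≤ K * s →
    ∀ n : ℕ, (n : ℤ) = 64 * L →
      gg r L (16 * s) ≤ C * ((bulkMeasure n) {ω | TwoWinds n ω}).toReal := by
  intro K
  obtain ⟨q, hq, hpr⟩ := prob_glue K.toNat
  refine ⟨4 / q, ?_⟩
  intro s r L hs h1 h2 h3 n hn
  have hK : L ≤ (K.toNat : ℤ) * s := by
    refine h3.trans ?_
    exact mul_le_mul_of_nonneg_right (Int.self_le_toNat K) (by omega)
  have g10 := hpr s r L hs h1 h2 hK (1, 0) (Or.inr (Or.inl rfl))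
  have g01 := hpr s r L hs h1 h2 hK (0, 1) (Or.inr (Or.inr (Or.inl rfl)))
  have hsw := Pr_WW_swap (L := L) (by omega)
  have hW := WW_le hn
  have r1 : refc ((1, 0) : ℤ × ℤ) = (1, 1) := by unfold refc; simp
  have r2 : refc ((0, 1) : ℤ × ℤ) = (0, 0) := by unfold refc; simp
  have s1 := Pr_Good_ref (r := r) (L := L) (w := 16 * s) (1, 0)
  have s2 := Pr_Good_ref (r := r) (L := L) (w := 16 * s) (0, 1)
  rw [r1] at s1
  rw [r2] at s2
  unfold gg
  rw [s1, s2]
  rw [div_mul_eq_mul_div, le_div_iff₀ hq]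
  nlinarith

end Pool.Agent.H65.Two
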